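import Pool.Agent.L7h59.PP.Stm
import Pool.Agent.Q154.PT.Twist

/-! Project PP (MP_04c03c_gt), part TZERO. -/

set_option autoImplicit false

namespace Pool.Agent.L7h13.PP

open scoped ENNReal
open Pool.Agent.H919R4.ZS (L2)
open Pool.Agent.Q169.PT
open Pool.Agent.Q154.PT.Twist (tw tw_hom norm_s reg_hom tempered)
open Pool.Agent.L7h59.PP

/-- An element of `L2 G` fixed by infinitely many elements (in the twisted representation) is zero. -/
theorem fixed_inj {G : Type} [Group G] (w : G →* ℤˣ) {S : Type} [Infinite S] (φ : S → G)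
    (hφ : Function.Injective φ) (f : L2 G) (hf : ∀ q, (tw w).hom (φ q) f = f) : f = 0 := by
  have h1 : ∀ (x : G) (q : S), ‖f ((φ q)⁻¹ * x)‖ = ‖f x‖ := by
    intro x q
    have e := congrArg (fun F : L2 G => F x) (hf q)
    simp only [] at e
    rw [tw_hom, lp.coeFn_smul, Pi.smul_apply, smul_eq_mul, reg_hom] at e
    rw [← e, norm_mul, norm_s, one_mul]
  have h2 : 0 < (2 : ℝ≥0∞).toReal := by norm_num
  have h3 := ((memℓp_gen_iff h2).1 (lp.memℓp f)).tendsto_cofinite_zero
  ext x
  have hinj : Function.Injective (fun q : S => (φ q)⁻¹ * x) := by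
    intro a b hab
    have : (φ a)⁻¹ = (φ b)⁻¹ := mul_right_cancel hab
    exact hφ (inv_injective this)
  have h4 := h3.comp hinj.tendsto_cofinite
  have h5 : Filter.Tendsto (fun _ : S => ‖f x‖ ^ (2 : ℝ≥0∞).toReal) Filter.cofinite (nhds 0) := by
    refine h4.congr fun q => ?_
    simp only [Function.comp]
    rw [h1 x q]
  have h6 : ‖f x‖ ^ (2 : ℝ≥0∞).toReal = 0 := tendsto_nhds_unique tendsto_const_nhds h5
  have h7 : ‖f x‖ = 0 := by
    have : (2 : ℝ≥0∞).toReal = 2 := by norm_num
    rw [this] at h6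
    norm_num at h6
    simpa using h6
  simpa using h7

theorem s_TZERO : S_TZERO := by
  intro G ι _ _ P w hP hvan T hT1 hT2
  obtain ⟨i0⟩ := ‹Nonempty ι›
  have hT2' : ∀ g a b, T (mv g a) (mv g b) = (tw w).hom g (T a b) := fun g a b => hT2 g a b
  have h00 : ∀ a, T a a = 0 := fun a => by
    have := hT1 a a a
    simpa using this
  have hmm : ∀ (g h : G) (a : Cosets P), mv (g * h) a = mv g (mv h a) := by
    intro g h a
    exact Sigma.ext rfl (heq_of_eq (mul_smul g h a.2))
  have hst : ∀ (g : G) (i : ι) (p : G), p ∈ P i →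
      mv (g * p * g⁻¹) (⟨i, (g : G ⧸ P i)⟩ : Cosets P) = ⟨i, (g : G ⧸ P i)⟩ := by
    intro g i p hp
    have : (g * p * g⁻¹) • ((g : G) : G ⧸ P i) = ((g : G) : G ⧸ P i) := by
      rw [MulAction.Quotient.smul_coe]
      rw [QuotientGroup.eq]
      have h3 : ((g * p * g⁻¹) • g)⁻¹ * g = p⁻¹ := by
        rw [smul_eq_mul]
        group
      rw [h3]
      exact (P i).inv_mem hp
    unfold mv
    simp only [this]
  obtain ⟨a0, ha0⟩ : ∃ a0 : Cosets P, a0 = ⟨i0, ((1 : G) : G ⧸ P i0)⟩ := ⟨_, rfl⟩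
  have hc : IsCoc (tw w) (fun g => T (mv g a0) a0) := by
    intro g h
    change T (mv (g * h) a0) a0 = T (mv g a0) a0 + (tw w).hom g (T (mv h a0) a0)
    rw [← hT2', ← hmm, add_comm, hT1]
  obtain ⟨v, hv⟩ := hvan _ (tw w) (tempered w) _ hc
  have hv0 : v = 0 := by
    have := hP i0
    refine fixed_inj w (fun p : P i0 => (p : G)) Subtype.val_injective v fun p => ?_
    have h1 := hv p
    have h2 : mv (p : G) a0 = a0 := by
      have := hst 1 i0 p p.2
      rw [one_mul, inv_one, mul_one] at this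
      rw [ha0]
      exact this
    simp only [h2, h00] at h1
    exact sub_eq_zero.mp h1.symm
  have hc0 : ∀ g, T (mv g a0) a0 = 0 := fun g => by
    have := hv g
    rw [hv0, map_zero, sub_zero] at this
    exact this
  have ha : ∀ a, T a a0 = 0 := by
    rintro ⟨i, x⟩
    obtain ⟨g, rfl⟩ := QuotientGroup.mk_surjective x
    have := hP i
    refine fixed_inj w (fun p : P i => g * (p : G) * g⁻¹) ?_ _ fun p => ?_
    · intro a b hab
      exact Subtype.ext (mul_left_cancel (mul_right_cancel hab))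
    · have e1 := hst g i p p.2
      rw [← hT2']
      have e2 := hT1 ⟨i, (g : G ⧸ P i)⟩ (mv (g * (p : G) * g⁻¹) a0) a0
      rw [hc0, add_zero] at e2
      rw [← e2]
      exact congrArg (fun z => T z (mv (g * (p : G) * g⁻¹) a0)) e1
  intro a b
  have e := hT1 a a0 b
  have e' := hT1 b a0 b
  rw [ha, h00, zero_add] at e'
  rw [← e, ha, e', add_zero]

end Pool.Agent.L7h13.PP
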